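import Pool.Agent.Hhelper59.WittR.Defs
import Pool.Agent.Hhelper2.QStr

/-!
# Abstract Witt rings of quaternionic structures
-/

namespace Pool.Agent.Hhelper59.WittR

open Pool.Agent.Hhelper2

universe u v w

lemma Pair.IsIso.trans {P : Pair.{u}} {Q : Pair.{v}} {R : Pair.{w}} (h : P.IsIso Q)
    (h' : Q.IsIso R) : P.IsIso R := by
  obtain ⟨f, hf⟩ := h
  obtain ⟨g, hg⟩ := h'
  exact ⟨f.trans g, fun x => by rw [RingEquiv.trans_apply, hg, hf]⟩

lemma Pair.IsIso.symm {P : Pair.{u}} {Q : Pair.{v}} (h : P.IsIso Q) : Q.IsIso P := by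
  obtain ⟨f, hf⟩ := h
  exact ⟨f.symm, fun x => by rw [← hf, RingEquiv.apply_symm_apply]⟩

lemma Pair.IsIso.refl (P : Pair.{u}) : P.IsIso P := ⟨RingEquiv.refl _, fun _ => rfl⟩

/-! ### Quotients of group rings -/

section Quot

variable {G : Type u} [CommGroup G]

/-- Additive induction in a quotient of `ℤ[G]`. -/
lemma quot_induction {I : Ideal (MonoidAlgebra ℤ G)} {p : MonoidAlgebra ℤ G ⧸ I → Prop}
    (h0 : p 0) (hg : ∀ a : G, p (Ideal.Quotient.mk I (MonoidAlgebra.of ℤ G a)))
    (hadd : ∀ x y, p x → p y → p (x + y)) (hneg : ∀ x, p x → p (-x)) (x) : p x := by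
  obtain ⟨y, rfl⟩ := Ideal.Quotient.mk_surjective x
  induction y using MonoidAlgebra.induction_on with
  | of a => exact hg a
  | add y z hy hz => rw [map_add]; exact hadd _ _ hy hz
  | smul n y hy =>
    rw [map_zsmul]
    induction n using Int.induction_on with
    | zero => rw [zero_smul]; exact h0
    | succ n ih => rw [add_smul, one_smul]; exact hadd _ _ ih hy
    | pred n ih => rw [sub_smul, one_smul, sub_eq_add_neg]; exact hadd _ _ ih (hneg _ hy)

lemma quot_hom_ext {I : Ideal (MonoidAlgebra ℤ G)} {R : Type v} [Ring R]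
    {f g : MonoidAlgebra ℤ G ⧸ I →+* R}
    (h : ∀ a : G, f (Ideal.Quotient.mk I (MonoidAlgebra.of ℤ G a)) =
      g (Ideal.Quotient.mk I (MonoidAlgebra.of ℤ G a))) : f = g := by
  refine RingHom.ext fun x => ?_
  refine quot_induction (p := fun x => f x = g x) (by simp) h ?_ ?_ x
  · intro x y hx hy
    rw [map_add, map_add, hx, hy]
  · intro x hx
    rw [map_neg, map_neg, hx]

end Quot

/-! ### The Witt ring of a quaternionic structure -/

/-- Relations `⟨a⟩ + ⟨b⟩ = ⟨c⟩ + ⟨d⟩` coming from isometries of binary forms. -/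
def QRel (S : QStr.{u}) : Set (MonoidAlgebra ℤ S.G) :=
  {x | ∃ a b c d : S.G, a * b = c * d ∧ S.Split (a * c) (b * c) ∧
    x = MonoidAlgebra.of ℤ S.G a + MonoidAlgebra.of ℤ S.G b -
      (MonoidAlgebra.of ℤ S.G c + MonoidAlgebra.of ℤ S.G d)}

/-- The hyperbolic plane. -/
noncomputable def hyp (S : QStr.{u}) : MonoidAlgebra ℤ S.G :=
  MonoidAlgebra.of ℤ S.G 1 + MonoidAlgebra.of ℤ S.G S.neg

/-- The ideal of relations. -/
noncomputable def QIdeal (S : QStr.{u}) : Ideal (MonoidAlgebra ℤ S.G) :=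
  Ideal.span (QRel S ∪ {hyp S})

lemma QIdeal_le_ker (S : QStr.{u}) : QIdeal S ≤ RingHom.ker (aug S.G) := by
  unfold QIdeal
  rw [Ideal.span_le]
  rintro x (⟨a, b, c, d, -, -, rfl⟩ | rfl)
  · show aug S.G _ = 0
    rw [map_sub, map_add, map_add, aug_of, aug_of, aug_of, aug_of, sub_self]
  · show aug S.G (hyp S) = 0
    unfold hyp
    rw [map_add, aug_of, aug_of]
    decide

/-- The abstract Witt ring. -/
noncomputable def absWitt (S : QStr.{u}) : Pair.{u} where
  R := MonoidAlgebra ℤ S.G ⧸ QIdeal S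
  e := Ideal.Quotient.lift (QIdeal S) (aug S.G) fun _ hx => QIdeal_le_ker S hx

/-- The class of a one-dimensional form. -/
noncomputable def cl (S : QStr.{u}) : S.G →* (absWitt S).R :=
  ((Ideal.Quotient.mk (QIdeal S) : MonoidAlgebra ℤ S.G →* MonoidAlgebra ℤ S.G ⧸ QIdeal S)).comp
    (MonoidAlgebra.of ℤ S.G)

lemma cl_rel (S : QStr.{u}) (a b c d : S.G) (h : a * b = c * d) (hs : S.Split (a * c) (b * c)) :
    cl S a + cl S b = cl S c + cl S d := by
  have : (Ideal.Quotient.mk (QIdeal S)) (MonoidAlgebra.of ℤ S.G a + MonoidAlgebra.of ℤ S.G b) =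
      (Ideal.Quotient.mk (QIdeal S)) (MonoidAlgebra.of ℤ S.G c + MonoidAlgebra.of ℤ S.G d) := by
    rw [Ideal.Quotient.eq]
    exact Ideal.subset_span (Or.inl ⟨a, b, c, d, h, hs, rfl⟩)
  rw [map_add, map_add] at this
  exact this

lemma cl_hyp (S : QStr.{u}) : 1 + cl S S.neg = 0 := by
  have : (Ideal.Quotient.mk (QIdeal S)) (hyp S) = 0 :=
    Ideal.Quotient.eq_zero_iff_mem.2 (Ideal.subset_span (Or.inr rfl))
  unfold hyp at this
  rw [map_add] at this
  have h1 : (1 : (absWitt S).R) = cl S 1 := (map_one _).symm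
  rw [h1]
  exact this

lemma cl_neg (S : QStr.{u}) : cl S S.neg = -1 := by
  rw [eq_neg_iff_add_eq_zero, add_comm]; exact cl_hyp S

lemma absWitt_e_cl (S : QStr.{u}) (a : S.G) : (absWitt S).e (cl S a) = 1 := by
  show aug S.G (MonoidAlgebra.of ℤ S.G a) = 1
  exact aug_of _ _

lemma abs_hom_ext {S : QStr.{u}} {R : Type v} [Ring R] {f g : (absWitt S).R →+* R}
    (h : ∀ a : S.G, f (cl S a) = g (cl S a)) : f = g := quot_hom_ext h

lemma abs_induction {S : QStr.{u}} {p : (absWitt S).R → Prop}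
    (h0 : p 0) (hg : ∀ a : S.G, p (cl S a))
    (hadd : ∀ x y, p x → p y → p (x + y)) (hneg : ∀ x, p x → p (-x)) (x) : p x :=
  quot_induction h0 hg hadd hneg x

/-- The universal property. -/
lemma abs_lift (S : QStr.{u}) {R : Type v} [CommRing R] (φ : S.G →* R)
    (h : ∀ a b c d : S.G, a * b = c * d → S.Split (a * c) (b * c) → φ a + φ b = φ c + φ d)
    (h' : 1 + φ S.neg = 0) : ∃ f : (absWitt S).R →+* R, ∀ a, f (cl S a) = φ a := by
  let F : MonoidAlgebra ℤ S.G →+* R := (MonoidAlgebra.lift ℤ R S.G φ : MonoidAlgebra ℤ S.G →ₐ[ℤ] R)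
  have hF : ∀ a, F (MonoidAlgebra.of ℤ S.G a) = φ a := fun a => by
    show (MonoidAlgebra.lift ℤ R S.G φ) (MonoidAlgebra.of ℤ S.G a) = φ a
    rw [MonoidAlgebra.lift_of]
  have hk : QIdeal S ≤ RingHom.ker F := by
    unfold QIdeal
    rw [Ideal.span_le]
    rintro x (⟨a, b, c, d, h1, h2, rfl⟩ | rfl)
    · show F _ = 0
      rw [map_sub, map_add, map_add, hF, hF, hF, hF, h a b c d h1 h2, sub_self]
    · show F (hyp S) = 0
      unfold hyp
      rw [map_add, hF, hF, map_one, h']
  exact ⟨Ideal.Quotient.lift (QIdeal S) F fun _ hx => hk hx, fun a => hF a⟩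

/-- The axioms we need. -/
structure QAx (S : QStr.{u}) : Prop where
  sq : ∀ a : S.G, a * a = 1
  split_one : ∀ a, S.Split 1 a
  one_split : ∀ a, S.Split a 1
  split_neg : ∀ a, S.Split a (S.neg * a)

lemma QAx.of_iso {S : QStr.{u}} {T : QStr.{v}} (f : S.Iso T) (h : QAx T) : QAx S where
  sq a := by
    apply f.e.injective
    rw [map_mul, map_one, h.sq]
  split_one a := by rw [f.map_split, map_one]; exact h.split_one _
  one_split a := by rw [f.map_split, map_one]; exact h.one_split _
  split_neg a := by rw [f.map_split, map_mul, f.map_neg]; exact h.split_neg _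

lemma c2_sq (i : Multiplicative (ZMod 2)) : i * i = 1 := by
  revert i; decide

lemma QAx.prod {S : QStr.{u}} {T : QStr.{v}} (h : QAx S) (h' : QAx T) : QAx (S.prod T) where
  sq _ := Prod.ext (h.sq _) (h'.sq _)
  split_one _ := ⟨h.split_one _, h'.split_one _⟩
  one_split _ := ⟨h.one_split _, h'.one_split _⟩
  split_neg _ := ⟨h.split_neg _, h'.split_neg _⟩

lemma QAx.ext {S : QStr.{u}} (h : QAx S) : QAx S.ext where
  sq _ := Prod.ext (h.sq _) (c2_sq _)
  split_one _ := Or.inr (Or.inl rfl)
  one_split _ := Or.inr (Or.inr (Or.inl rfl))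
  split_neg := by
    rintro ⟨a, i⟩
    by_cases hi : i = 1
    · subst hi
      exact Or.inl ⟨rfl, one_mul _, h.split_neg a⟩
    · refine Or.inr (Or.inr (Or.inr ⟨hi, ?_, rfl⟩))
      show 1 * i ≠ 1
      rwa [one_mul]

/-- Functoriality. -/
lemma absWitt_iso {S : QStr.{u}} {T : QStr.{v}} (f : S.Iso T) : (absWitt S).IsIso (absWitt T) := by
  have key : ∀ {S : QStr.{u}} {T : QStr.{v}} (f : S.Iso T),
      ∃ g : (absWitt S).R →+* (absWitt T).R, ∀ a, g (cl S a) = cl T (f.e a) := by
    intro S T f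
    refine abs_lift S ((cl T).comp f.e.toMonoidHom) ?_ ?_
    · intro a b c d h1 h2
      refine cl_rel T _ _ _ _ ?_ ?_
      · show f.e a * f.e b = f.e c * f.e d
        rw [← map_mul, ← map_mul, h1]
      · show T.Split (f.e a * f.e c) (f.e b * f.e c)
        rw [← map_mul, ← map_mul, ← f.map_split]
        exact h2
    · show 1 + cl T (f.e S.neg) = 0
      rw [f.map_neg]
      exact cl_hyp T
  have key' : ∀ {S : QStr.{v}} {T : QStr.{u}} (f : S.Iso T),
      ∃ g : (absWitt S).R →+* (absWitt T).R, ∀ a, g (cl S a) = cl T (f.e a) := by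
    intro S T f
    refine abs_lift S ((cl T).comp f.e.toMonoidHom) ?_ ?_
    · intro a b c d h1 h2
      refine cl_rel T _ _ _ _ ?_ ?_
      · show f.e a * f.e b = f.e c * f.e d
        rw [← map_mul, ← map_mul, h1]
      · show T.Split (f.e a * f.e c) (f.e b * f.e c)
        rw [← map_mul, ← map_mul, ← f.map_split]
        exact h2
    · show 1 + cl T (f.e S.neg) = 0
      rw [f.map_neg]
      exact cl_hyp T
  obtain ⟨g, hg⟩ := key f
  obtain ⟨g', hg'⟩ := key' f.symm
  refine ⟨RingEquiv.ofRingHom g g' ?_ ?_, ?_⟩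
  · refine abs_hom_ext fun a => ?_
    show g (g' (cl T a)) = cl T a
    rw [hg', hg]
    show cl T (f.e (f.e.symm a)) = _
    rw [MulEquiv.apply_symm_apply]
  · refine abs_hom_ext fun a => ?_
    show g' (g (cl S a)) = cl S a
    rw [hg, hg']
    show cl S (f.e.symm (f.e a)) = _
    rw [MulEquiv.symm_apply_apply]
  · intro x
    have : ((absWitt T).e.comp g) = (absWitt S).e := by
      refine abs_hom_ext fun a => ?_
      show (absWitt T).e (g (cl S a)) = _
      rw [hg, absWitt_e_cl, absWitt_e_cl]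
    exact RingHom.congr_fun this x

/-! ### Group extensions -/

/-- The element `r gⁱ` of the group ring extension. -/
noncomputable def sgl (P : Pair.{u}) (i : Multiplicative (ZMod 2)) (r : P.R) : P.ext.R :=
  (MonoidAlgebra.single i r : MonoidAlgebra P.R (Multiplicative (ZMod 2)))

lemma sgl_add (P : Pair.{u}) (i : Multiplicative (ZMod 2)) (r s : P.R) :
    sgl P i r + sgl P i s = sgl P i (r + s) :=
  (MonoidAlgebra.single_add (R := P.R) i r s).symm

lemma sgl_zero (P : Pair.{u}) (i : Multiplicative (ZMod 2)) : sgl P i 0 = 0 :=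
  MonoidAlgebra.single_zero (R := P.R) i

lemma sgl_mul (P : Pair.{u}) (i j : Multiplicative (ZMod 2)) (r s : P.R) :
    sgl P i r * sgl P j s = sgl P (i * j) (r * s) :=
  MonoidAlgebra.single_mul_single (R := P.R) i j r s

lemma sgl_one (P : Pair.{u}) : sgl P 1 1 = 1 := rfl

lemma ext_e_single (P : Pair.{u}) (i : Multiplicative (ZMod 2)) (r : P.R) :
    P.ext.e (sgl P i r) = P.e r := by
  have := MonoidAlgebra.liftNCRingHom_single P.e (1 : Multiplicative (ZMod 2) →* ZMod 2)
    (fun _ _ => Commute.all _ _) i r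
  refine this.trans ?_
  simp

lemma c2_a (i k : Multiplicative (ZMod 2)) (h : i * k = 1) : i = k := by
  revert i k; decide

lemma c2_b (i j k l : Multiplicative (ZMod 2)) (h1 : i * k ≠ 1) (h2 : j * k ≠ 1)
    (h3 : i * j = k * l) : i = j ∧ l = k := by
  revert i j k l; decide

/-- The inclusion of `S` in its extension, and the generator. -/
def inl (S : QStr.{u}) : S.G →* S.ext.G := MonoidHom.inl S.G (Multiplicative (ZMod 2))

/-- The inclusion of the group of order two. -/
def inr (S : QStr.{u}) : Multiplicative (ZMod 2) →* S.ext.G :=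
  MonoidHom.inr S.G (Multiplicative (ZMod 2))

lemma inl_mul_inr (S : QStr.{u}) (a : S.G) (i : Multiplicative (ZMod 2)) :
    inl S a * inr S i = ((a, i) : S.G × Multiplicative (ZMod 2)) := by
  exact Prod.ext (mul_one _) (one_mul _)

lemma absWitt_ext (S : QStr.{u}) (hS : QAx S) : (absWitt S.ext).IsIso (absWitt S).ext := by
  have hsq := hS.sq
  -- the map `⟨a tⁱ⟩ ↦ ⟨a⟩ gⁱ`
  let φ : S.ext.G →* (absWitt S).ext.R :=
    { toFun := fun x => sgl (absWitt S) x.2 (cl S x.1)
      map_one' := by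
        show sgl (absWitt S) 1 (cl S 1) = 1
        rw [map_one]; rfl
      map_mul' := by
        rintro ⟨a, i⟩ ⟨b, j⟩
        show sgl (absWitt S) (i * j) (cl S (a * b)) = sgl (absWitt S) i (cl S a) *
          sgl (absWitt S) j (cl S b)
        rw [sgl_mul, map_mul] }
  have hφ : ∀ a i, φ (a, i) = sgl (absWitt S) i (cl S a) := fun _ _ => rfl
  have hhyp : ∀ a i, φ (a, i) + φ (S.neg * a, i) = 0 := by
    intro a i
    rw [hφ, hφ, sgl_add, map_mul, cl_neg, neg_one_mul, add_neg_cancel, sgl_zero]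
  have mul_eq_one : ∀ a b : S.G, a * b = 1 → a = b := by
    intro a b h
    have := hsq b
    calc a = a * (b * b) := by rw [this, mul_one]
      _ = (a * b) * b := (mul_assoc _ _ _).symm
      _ = b := by rw [h, one_mul]
  have mul_eq_one' : ∀ a b : S.ext.G, a * b = 1 → a = b := by
    intro a b h
    have := hS.ext.sq b
    calc a = a * (b * b) := by rw [this, mul_one]
      _ = (a * b) * b := (mul_assoc _ _ _).symm
      _ = b := by rw [h, one_mul]
  obtain ⟨f, hf⟩ := abs_lift S.ext φ (by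
    intro x y z w h1 h2
    rcases h2 with ⟨h3, h4, h5⟩ | h3 | h3 | ⟨h3, h4, h5⟩
    · -- all second components equal
      obtain ⟨a, i⟩ := x
      obtain ⟨b, j⟩ := y
      obtain ⟨c, k⟩ := z
      obtain ⟨d, l⟩ := w
      have e1 : i * k = 1 := h3
      have e2 : j * k = 1 := h4
      have e3 : i = k := c2_a _ _ e1
      have e4 : j = k := c2_a _ _ e2
      subst e3
      subst e4
      have e5 : a * b = c * d := congrArg Prod.fst h1
      have e6 : j * j = j * l := congrArg Prod.snd h1
      have e7 : l = j := (mul_left_cancel e6).symm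
      subst e7
      rw [hφ, hφ, hφ, hφ, sgl_add, sgl_add, cl_rel S a b c d e5 h5]
    · have e1 := mul_eq_one' _ _ h3
      subst e1
      rw [mul_left_cancel h1]
    · have e1 := mul_eq_one' _ _ h3
      subst e1
      rw [mul_comm] at h1
      rw [mul_left_cancel h1, add_comm]
    · obtain ⟨a, i⟩ := x
      obtain ⟨b, j⟩ := y
      obtain ⟨c, k⟩ := z
      obtain ⟨d, l⟩ := w
      have e1 : i * k ≠ 1 := h3
      have e2 : j * k ≠ 1 := h4
      have e6 : i * j = k * l := congrArg Prod.snd h1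
      have e3 : i = j ∧ l = k := c2_b _ _ _ _ e1 e2 e6
      obtain ⟨e3, e4⟩ := e3
      subst e3
      subst e4
      have e5 : b * c = S.neg * (a * c) := h5
      have e7 : b = S.neg * a := by
        rw [← mul_assoc] at e5
        exact mul_right_cancel e5
      have e8 : a * b = c * d := congrArg Prod.fst h1
      have e9 : d = S.neg * c := by
        have : c * d = S.neg := by
          rw [← e8, e7, mul_comm, mul_assoc, hsq, mul_one]
        calc d = (c * c) * d := by rw [hsq, one_mul]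
          _ = c * (c * d) := mul_assoc _ _ _
          _ = S.neg * c := by rw [this, mul_comm]
      subst e7
      subst e9
      rw [hhyp, hhyp]) (by
    have h1 : (1 : (absWitt S).ext.R) = φ (1, 1) := (map_one φ).symm
    have h2 : φ S.ext.neg = φ (S.neg * 1, 1) := by rw [mul_one]; rfl
    rw [h1, h2]
    exact hhyp 1 1)
  -- the inverse
  obtain ⟨g0, hg0⟩ := abs_lift S (R := (absWitt S.ext).R) ((cl S.ext).comp (inl S)) (by
      intro a b c d h1 h2
      refine cl_rel S.ext _ _ _ _ ?_ ?_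
      · rw [← map_mul, ← map_mul, h1]
      · exact Or.inl ⟨mul_one _, mul_one _, h2⟩) (cl_hyp S.ext)
  let g : (absWitt S).ext.R →+* (absWitt S.ext).R :=
    MonoidAlgebra.liftNCRingHom g0 ((cl S.ext).comp (inr S)) fun _ _ => Commute.all _ _
  have hg : ∀ i r, g (sgl (absWitt S) i r) = g0 r * cl S.ext (inr S i) := by
    intro i r
    exact MonoidAlgebra.liftNCRingHom_single _ _ _ _ _
  refine ⟨RingEquiv.ofRingHom f g ?_ ?_, ?_⟩
  · refine MonoidAlgebra.ringHom_ext ?_ ?_
    · intro r
      have : (f.comp g0) = (MonoidAlgebra.singleOneRingHom : (absWitt S).R →+*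
          MonoidAlgebra (absWitt S).R (Multiplicative (ZMod 2))) := by
        refine abs_hom_ext fun a => ?_
        show f (g0 (cl S a)) = sgl (absWitt S) 1 (cl S a)
        rw [hg0]
        exact hf (inl S a)
      show f (g (sgl (absWitt S) 1 r)) = sgl (absWitt S) 1 r
      rw [hg, map_one, map_one, mul_one]
      exact RingHom.congr_fun this r
    · intro i
      show f (g (sgl (absWitt S) i 1)) = sgl (absWitt S) i 1
      rw [hg, map_one, one_mul, hf]
      show sgl (absWitt S) i (cl S 1) = _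
      rw [map_one]
  · refine abs_hom_ext fun x => ?_
    obtain ⟨a, i⟩ := x
    show g (f (cl S.ext (a, i))) = cl S.ext (a, i)
    rw [hf, hφ, hg, hg0]
    show cl S.ext (inl S a) * cl S.ext (inr S i) = _
    rw [← map_mul, inl_mul_inr]
  · intro x
    have : ((absWitt S).ext.e.comp f) = (absWitt S.ext).e := by
      refine abs_hom_ext fun a => ?_
      show (absWitt S).ext.e (f (cl S.ext a)) = _
      rw [hf, absWitt_e_cl]
      obtain ⟨a, i⟩ := a
      rw [hφ, ext_e_single, absWitt_e_cl]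
    exact RingHom.congr_fun this x

end Pool.Agent.Hhelper59.WittR
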