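import Pool.Agent.Hhelper59.WittR.Defs

/-!
# Chain equivalence of orthogonal bases
-/

namespace Pool.Agent.Hhelper59.WittR

universe u v w

open QuadraticMap

section Chain

variable {F : Type u} [Field F] (h2 : (2 : F) ≠ 0) {V : Type v} [AddCommGroup V] [Module F V]
  (Q : QuadraticForm F V) {A : Type w} [AddCommGroup A] (ψ : F → A)
  (hψ1 : ∀ x s : F, x ≠ 0 → s ≠ 0 → ψ (s * s * x) = ψ x)
  (hψ2 : ∀ a b : F, a ≠ 0 → b ≠ 0 → a + b ≠ 0 → ψ a + ψ b = ψ (a + b) + ψ (a * b * (a + b)))

/-- Lists of pairwise orthogonal anisotropic vectors. -/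
def OA (l : List V) : Prop := l.Pairwise (fun v w => polar Q v w = 0) ∧ ∀ v ∈ l, Q v ≠ 0

/-- The span of a list. -/
def sp (l : List V) : Submodule F V := Submodule.span F {v | v ∈ l}

/-- The sum of the values. -/
def Sm (l : List V) : A := (l.map fun v => ψ (Q v)).sum

/-- Chain equivalence. -/
def CRel (l m : List V) : Prop := OA Q l ∧ OA Q m ∧ sp (F := F) l = sp m ∧ Sm Q ψ l = Sm Q ψ m

lemma sp_cons (v : V) (l : List V) : sp (F := F) (v :: l) = Submodule.span F {v} ⊔ sp l := by
  unfold sp
  rw [← Submodule.span_union]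
  congr 1
  ext w
  simp

lemma mem_sp_cons {v : V} {l : List V} {w : V} :
    w ∈ sp (F := F) (v :: l) ↔ ∃ x : F, ∃ w' ∈ sp (F := F) l, w = x • v + w' := by
  rw [sp_cons, Submodule.mem_sup]
  constructor
  · rintro ⟨y, hy, z, hz, rfl⟩
    obtain ⟨x, rfl⟩ := Submodule.mem_span_singleton.1 hy
    exact ⟨x, z, hz, rfl⟩
  · rintro ⟨x, w', hw', rfl⟩
    exact ⟨x • v, Submodule.mem_span_singleton.2 ⟨x, rfl⟩, w', hw', rfl⟩

lemma OA_cons {v : V} {l : List V} :
    OA Q (v :: l) ↔ Q v ≠ 0 ∧ (∀ w ∈ l, polar Q v w = 0) ∧ OA Q l := by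
  unfold OA
  rw [List.pairwise_cons]
  simp only [List.mem_cons, forall_eq_or_imp]
  tauto

lemma polar_sp {v : V} {l : List V} (h : ∀ w ∈ l, polar Q v w = 0) :
    ∀ w ∈ sp (F := F) l, polar Q v w = 0 := by
  intro w hw
  unfold sp at hw
  induction hw using Submodule.span_induction with
  | mem x hx => exact h x hx
  | zero => exact polar_zero_right Q v
  | add x y _ _ hx hy => rw [polar_add_right, hx, hy, add_zero]
  | smul a x _ hx => rw [polar_smul_right, hx, smul_zero]

lemma mem_sp {v : V} {l : List V} (h : v ∈ l) : v ∈ sp (F := F) l := Submodule.subset_span h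

variable {Q ψ}

lemma CRel.trans {l m n : List V} (h : CRel Q ψ l m) (h' : CRel Q ψ m n) : CRel Q ψ l n :=
  ⟨h.1, h'.2.1, h.2.2.1.trans h'.2.2.1, h.2.2.2.trans h'.2.2.2⟩

lemma CRel.cons {l m : List V} (h : CRel Q ψ l m) {v : V} (hv : OA Q (v :: l)) :
    CRel Q ψ (v :: l) (v :: m) := by
  obtain ⟨-, h1, h3, h4⟩ := h
  refine ⟨hv, ?_, ?_, ?_⟩
  · rw [OA_cons] at hv ⊢
    refine ⟨hv.1, fun w hw => ?_, h1⟩
    refine polar_sp Q hv.2.1 w ?_
    rw [h3]
    exact mem_sp hw
  · rw [sp_cons, sp_cons, h3]
  · simp only [Sm, List.map_cons, List.sum_cons] at h4 ⊢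
    rw [h4]

lemma CRel.perm {l m : List V} (h : l.Perm m) (hl : OA Q l) : CRel Q ψ l m := by
  refine ⟨hl, ⟨?_, fun v hv => hl.2 v (h.mem_iff.2 hv)⟩, ?_, ?_⟩
  · refine (List.Perm.pairwise_iff ?_ h).1 hl.1
    intro x y hxy
    rw [polar_comm]; exact hxy
  · unfold sp
    congr 1
    ext v
    exact h.mem_iff
  · exact (h.map _).sum_eq

lemma polar_self' (v : V) : polar Q v v = 2 * Q v := by
  have := QuadraticMap.polar_self Q v
  rw [this, two_smul, two_mul]

include hψ1 hψ2 in
lemma combine {v1 v2 : V} {r : List V} (h : OA Q (v1 :: v2 :: r)) {x1 x2 : F} (hx1 : x1 ≠ 0)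
    (hx2 : x2 ≠ 0) (hu : Q (x1 • v1 + x2 • v2) ≠ 0) :
    CRel Q ψ (v1 :: v2 :: r)
      ((x1 • v1 + x2 • v2) :: ((x2 * Q v2) • v1 - (x1 * Q v1) • v2) :: r) := by
  have h' := h
  rw [OA_cons, OA_cons] at h
  obtain ⟨hq1, ho1, hq2, ho2, hr⟩ := h
  have h12 : polar Q v1 v2 = 0 := ho1 v2 (by simp)
  have h21 : polar Q v2 v1 = 0 := by rw [polar_comm]; exact h12
  have h11 := polar_self' (Q := Q) v1
  have h22 := polar_self' (Q := Q) v2
  have hQ : ∀ a b : F, Q (a • v1 + b • v2) = a * a * Q v1 + b * b * Q v2 := by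
    intro a b
    have e1 : Q (a • v1 + b • v2) = Q (a • v1) + Q (b • v2) + polar Q (a • v1) (b • v2) := by
      unfold polar; ring
    rw [e1, polar_smul_left, polar_smul_right, h12, QuadraticMap.map_smul,
      QuadraticMap.map_smul]
    simp [smul_eq_mul]
  have hQu := hQ x1 x2
  have hQu' : Q ((x2 * Q v2) • v1 - (x1 * Q v1) • v2) = Q v1 * Q v2 * Q (x1 • v1 + x2 • v2) := by
    rw [sub_eq_add_neg, ← neg_smul, hQ, hQu]
    ring
  have hpol : polar Q (x1 • v1 + x2 • v2) ((x2 * Q v2) • v1 - (x1 * Q v1) • v2) = 0 := by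
    rw [sub_eq_add_neg, ← neg_smul]
    simp only [polar_add_left, polar_add_right, polar_smul_left, polar_smul_right, h12, h21, h11,
      h22, smul_eq_mul]
    ring
  have hor : ∀ w ∈ r, ∀ a b : F, polar Q (a • v1 + b • v2) w = 0 := by
    intro w hw a b
    rw [polar_add_left, polar_smul_left, polar_smul_left, ho1 w (by simp [hw]), ho2 w hw]
    simp
  refine ⟨h', ?_, ?_, ?_⟩
  · rw [OA_cons, OA_cons]
    refine ⟨hu, ?_, ?_, ?_, hr⟩
    · intro w hw
      rcases List.mem_cons.1 hw with rfl | hw
      · exact hpol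
      · exact hor w hw _ _
    · rw [hQu']
      exact mul_ne_zero (mul_ne_zero hq1 hq2) hu
    · intro w hw
      rw [sub_eq_add_neg, ← neg_smul]
      exact hor w hw _ _
  · rw [sp_cons, sp_cons, sp_cons, sp_cons, ← sup_assoc, ← sup_assoc]
    congr 1
    have hu0 : Q (x1 • v1 + x2 • v2) ≠ 0 := hu
    apply le_antisymm
    · rw [sup_le_iff, Submodule.span_singleton_le_iff_mem, Submodule.span_singleton_le_iff_mem]
      constructor
      · have : v1 = ((Q (x1 • v1 + x2 • v2))⁻¹ * (x1 * Q v1)) • (x1 • v1 + x2 • v2) +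
            ((Q (x1 • v1 + x2 • v2))⁻¹ * x2) • ((x2 * Q v2) • v1 - (x1 * Q v1) • v2) := by
          have e1 : ((Q (x1 • v1 + x2 • v2))⁻¹ * (x1 * Q v1)) • (x1 • v1 + x2 • v2) +
            ((Q (x1 • v1 + x2 • v2))⁻¹ * x2) • ((x2 * Q v2) • v1 - (x1 * Q v1) • v2) =
            ((Q (x1 • v1 + x2 • v2))⁻¹ * (x1 * x1 * Q v1 + x2 * x2 * Q v2)) • v1 := by
            simp only [smul_add, smul_sub, smul_smul]
            module
          rw [e1, ← hQu, inv_mul_cancel₀ hu0, one_smul]
        exact Submodule.mem_sup.2 ⟨_, Submodule.smul_mem _ _ (Submodule.mem_span_singleton_self _),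
          _, Submodule.smul_mem _ _ (Submodule.mem_span_singleton_self _), this.symm⟩
      · have : v2 = ((Q (x1 • v1 + x2 • v2))⁻¹ * (x2 * Q v2)) • (x1 • v1 + x2 • v2) +
            (-(Q (x1 • v1 + x2 • v2))⁻¹ * x1) • ((x2 * Q v2) • v1 - (x1 * Q v1) • v2) := by
          have e1 : ((Q (x1 • v1 + x2 • v2))⁻¹ * (x2 * Q v2)) • (x1 • v1 + x2 • v2) +
            (-(Q (x1 • v1 + x2 • v2))⁻¹ * x1) • ((x2 * Q v2) • v1 - (x1 * Q v1) • v2) =
            ((Q (x1 • v1 + x2 • v2))⁻¹ * (x1 * x1 * Q v1 + x2 * x2 * Q v2)) • v2 := by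
            simp only [smul_add, smul_sub, smul_smul]
            module
          rw [e1, ← hQu, inv_mul_cancel₀ hu0, one_smul]
        exact Submodule.mem_sup.2 ⟨_, Submodule.smul_mem _ _ (Submodule.mem_span_singleton_self _),
          _, Submodule.smul_mem _ _ (Submodule.mem_span_singleton_self _), this.symm⟩
    · rw [sup_le_iff, Submodule.span_singleton_le_iff_mem, Submodule.span_singleton_le_iff_mem]
      constructor
      · exact Submodule.add_mem_sup (Submodule.smul_mem _ _ (Submodule.mem_span_singleton_self _))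
          (Submodule.smul_mem _ _ (Submodule.mem_span_singleton_self _))
      · rw [sub_eq_add_neg, ← neg_smul]
        exact Submodule.add_mem_sup (Submodule.smul_mem _ _ (Submodule.mem_span_singleton_self _))
          (Submodule.smul_mem _ _ (Submodule.mem_span_singleton_self _))
  · simp only [Sm, List.map_cons, List.sum_cons]
    rw [← add_assoc, ← add_assoc]
    congr 1
    have e1 := hψ2 (x1 * x1 * Q v1) (x2 * x2 * Q v2)
      (mul_ne_zero (mul_ne_zero hx1 hx1) hq1) (mul_ne_zero (mul_ne_zero hx2 hx2) hq2)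
      (by rw [← hQu]; exact hu)
    rw [hψ1 _ _ hq1 hx1, hψ1 _ _ hq2 hx2, ← hQu] at e1
    rw [e1, hQu']
    congr 1
    have e2 : x1 * x1 * Q v1 * (x2 * x2 * Q v2) * Q (x1 • v1 + x2 • v2) =
      (x1 * x2) * (x1 * x2) * (Q v1 * Q v2 * Q (x1 • v1 + x2 • v2)) := by ring
    rw [e2, hψ1 _ _ (mul_ne_zero (mul_ne_zero hq1 hq2) hu) (mul_ne_zero hx1 hx2)]

/-- The induction statement. -/
def PRep (Q : QuadraticForm F V) (ψ : F → A) (n : ℕ) : Prop :=
  ∀ l : List V, l.length = n → OA Q l → ∀ w ∈ sp (F := F) l, Q w ≠ 0 →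
    ∃ l', CRel Q ψ l (w :: l')

lemma aside {n : ℕ} (hP : PRep Q ψ n) {l r : List V} {v w : V} (h : CRel Q ψ l (v :: r))
    (hr : r.length = n) (hw : w ∈ sp (F := F) r) (hQ : Q w ≠ 0) : ∃ l', CRel Q ψ l (w :: l') := by
  have hvr := h.2.1
  obtain ⟨l', hl'⟩ := hP r hr ((OA_cons Q).1 hvr).2.2 w hw hQ
  have h1 := hl'.cons hvr
  exact ⟨v :: l', (h.trans h1).trans (CRel.perm (List.Perm.swap _ _ _) h1.2.1)⟩

include hψ1 hψ2 in
lemma step {n : ℕ} (hP : PRep Q ψ n) {l r : List V} {v1 v2 w : V}
    (h : CRel Q ψ l (v1 :: v2 :: r)) (hr : r.length + 1 = n) {x1 x2 : F} (hx1 : x1 ≠ 0)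
    (hx2 : x2 ≠ 0) (hu : Q (x1 • v1 + x2 • v2) ≠ 0) {w2 : V} (hw2 : w2 ∈ sp (F := F) r)
    (hw : w = x1 • v1 + x2 • v2 + w2) (hQ : Q w ≠ 0) : ∃ l', CRel Q ψ l (w :: l') := by
  have h1 := combine hψ1 hψ2 h.2.1 hx1 hx2 hu
  have h2 := (h.trans h1).trans (CRel.perm (List.Perm.swap _ _ _) h1.2.1)
  refine aside hP h2 (by simpa using hr) ?_ hQ
  rw [mem_sp_cons]
  exact ⟨1, w2, hw2, by rw [one_smul]; exact hw⟩

include h2 hψ1 hψ2 in
lemma rep (n : ℕ) : PRep Q ψ n := by
  induction n with
  | zero =>
    intro l hl _ w hw hQ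
    rw [List.length_eq_zero_iff] at hl
    subst hl
    exfalso
    apply hQ
    have : w = 0 := by
      have h1 : sp (F := F) ([] : List V) = ⊥ := by unfold sp; simp
      rw [h1] at hw
      exact (Submodule.mem_bot F).1 hw
    rw [this, map_zero]
  | succ n ih =>
    intro l hl hO w hwsp hQ
    cases l with
    | nil => simp at hl
    | cons v1 l1 =>
      have hrefl : CRel Q ψ (v1 :: l1) (v1 :: l1) := ⟨hO, hO, rfl, rfl⟩
      obtain ⟨x1, w1, hw1, hw⟩ := mem_sp_cons.1 hwsp
      clear hwsp
      have hl1 : l1.length = n := by simpa using hl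
      by_cases hx1 : x1 = 0
      · refine aside ih hrefl hl1 ?_ hQ
        rw [hw, hx1, zero_smul, zero_add]
        exact hw1
      · cases l1 with
        | nil =>
          refine ⟨[], hO, ?_, ?_, ?_⟩
          · rw [OA_cons]
            exact ⟨hQ, by simp, by unfold OA; simp⟩
          · have hw0 : w1 = 0 := by
              have h1 : sp (F := F) ([] : List V) = ⊥ := by unfold sp; simp
              rw [h1] at hw1
              exact (Submodule.mem_bot F).1 hw1
            rw [hw0, add_zero] at hw
            rw [sp_cons, sp_cons, hw]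
            congr 1
            exact (Submodule.span_singleton_smul_eq (IsUnit.mk0 _ hx1) v1).symm
          · have hw0 : w1 = 0 := by
              have h1 : sp (F := F) ([] : List V) = ⊥ := by unfold sp; simp
              rw [h1] at hw1
              exact (Submodule.mem_bot F).1 hw1
            rw [hw0, add_zero] at hw
            simp only [Sm, List.map_cons, List.map_nil, List.sum_cons, List.sum_nil, add_zero]
            rw [hw, QuadraticMap.map_smul, smul_eq_mul, hψ1 _ _ ((OA_cons Q).1 hO).1 hx1]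
        | cons v2 l2 =>
          obtain ⟨x2, w2, hw2, hw1'⟩ := mem_sp_cons.1 hw1
          have hl2 : l2.length + 1 = n := by simpa using hl1
          have hperm1 : CRel Q ψ (v1 :: v2 :: l2) (v2 :: v1 :: l2) :=
            CRel.perm (List.Perm.swap _ _ _) hO
          by_cases hx2 : x2 = 0
          · refine aside ih hperm1 (by simpa using hl2) ?_ hQ
            rw [mem_sp_cons]
            refine ⟨x1, w2, hw2, ?_⟩
            rw [hw, hw1', hx2, zero_smul, zero_add]
          · by_cases hu : Q (x1 • v1 + x2 • v2) = 0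
            · cases l2 with
              | nil =>
                exfalso
                apply hQ
                have hw0 : w2 = 0 := by
                  have h1 : sp (F := F) ([] : List V) = ⊥ := by unfold sp; simp
                  rw [h1] at hw2
                  exact (Submodule.mem_bot F).1 hw2
                rw [hw, hw1', hw0, add_zero]
                exact hu
              | cons v3 l3 =>
                obtain ⟨x3, w3, hw3, hw2'⟩ := mem_sp_cons.1 hw2
                have hl3 : l3.length + 1 + 1 = n := by simpa using hl2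
                have hO' := hO
                rw [OA_cons, OA_cons, OA_cons] at hO'
                obtain ⟨hq1, ho1, hq2, ho2, hq3, ho3, hr⟩ := hO'
                have h12 : polar Q v1 v2 = 0 := ho1 v2 (by simp)
                have h13 : polar Q v1 v3 = 0 := ho1 v3 (by simp)
                have h23 : polar Q v2 v3 = 0 := ho2 v3 (by simp)
                have hQ2 : ∀ (a b : F) (v v' : V), polar Q v v' = 0 →
                    Q (a • v + b • v') = a * a * Q v + b * b * Q v' := by
                  intro a b v v' h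
                  have e1 : Q (a • v + b • v') = Q (a • v) + Q (b • v') +
                      polar Q (a • v) (b • v') := by
                    unfold polar; ring
                  rw [e1, polar_smul_left, polar_smul_right, h, QuadraticMap.map_smul,
                    QuadraticMap.map_smul]
                  simp [smul_eq_mul]
                by_cases hx3 : x3 = 0
                · have hp : CRel Q ψ (v1 :: v2 :: v3 :: l3) (v3 :: v1 :: v2 :: l3) := by
                    refine CRel.perm ?_ hO
                    exact (List.Perm.cons v1 (List.Perm.swap v3 v2 l3)).trans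
                      (List.Perm.swap v3 v1 _)
                  refine aside ih hp (by simpa using hl3) ?_ hQ
                  rw [mem_sp_cons]
                  refine ⟨x1, w1, ?_, hw⟩
                  rw [mem_sp_cons]
                  refine ⟨x2, w3, hw3, ?_⟩
                  rw [hw1', hw2', hx3, zero_smul, zero_add]
                · by_cases hu' : Q (x1 • v1 + x3 • v3) = 0
                  · have hu'' : Q (x2 • v2 + x3 • v3) ≠ 0 := by
                      rw [hQ2 _ _ _ _ h12] at hu
                      rw [hQ2 _ _ _ _ h13] at hu'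
                      rw [hQ2 _ _ _ _ h23]
                      have e1 : x2 * x2 * Q v2 + x3 * x3 * Q v3 = 2 * (x2 * x2 * Q v2) := by
                        linear_combination hu' - hu
                      rw [e1]
                      exact mul_ne_zero h2 (mul_ne_zero (mul_ne_zero hx2 hx2) hq2)
                    have hp : CRel Q ψ (v1 :: v2 :: v3 :: l3) (v2 :: v3 :: v1 :: l3) := by
                      refine CRel.perm ?_ hO
                      exact (List.Perm.swap v2 v1 _).trans
                        (List.Perm.cons v2 (List.Perm.swap v3 v1 l3))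
                    refine step hψ1 hψ2 ih hp (by simpa using hl3) hx2 hx3 hu''
                      (w2 := x1 • v1 + w3) ?_ ?_ hQ
                    · rw [mem_sp_cons]
                      exact ⟨x1, w3, hw3, rfl⟩
                    · rw [hw, hw1', hw2']
                      abel
                  · have hp : CRel Q ψ (v1 :: v2 :: v3 :: l3) (v1 :: v3 :: v2 :: l3) := by
                      refine CRel.perm ?_ hO
                      exact (List.Perm.cons v1 (List.Perm.swap v3 v2 l3))
                    refine step hψ1 hψ2 ih hp (by simpa using hl3) hx1 hx3 hu'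
                      (w2 := x2 • v2 + w3) ?_ ?_ hQ
                    · rw [mem_sp_cons]
                      exact ⟨x2, w3, hw3, rfl⟩
                    · rw [hw, hw1', hw2']
                      abel
            · refine step hψ1 hψ2 ih hrefl hl2 hx1 hx2 hu hw2 ?_ hQ
              rw [hw, hw1', add_assoc]

lemma sp_tail {w : V} {l m : List V} (h2 : (2 : F) ≠ 0) (hl : OA Q (w :: l)) (hm : OA Q (w :: m))
    (h : sp (F := F) (w :: l) = sp (w :: m)) : sp (F := F) l ≤ sp m := by
  intro x hx
  have h1 : x ∈ sp (F := F) (w :: m) := by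
    rw [← h, mem_sp_cons]
    exact ⟨0, x, hx, by rw [zero_smul, zero_add]⟩
  obtain ⟨c, y, hy, rfl⟩ := mem_sp_cons.1 h1
  have e1 := polar_sp Q ((OA_cons Q).1 hl).2.1 _ hx
  have e2 := polar_sp Q ((OA_cons Q).1 hm).2.1 _ hy
  rw [polar_add_right, e2, add_zero, polar_smul_right, polar_self', smul_eq_mul] at e1
  have hQw := ((OA_cons Q).1 hl).1
  have hc : c = 0 := by
    rcases mul_eq_zero.1 e1 with h | h
    · exact h
    · exact absurd h (mul_ne_zero h2 hQw)
  rw [hc, zero_smul, zero_add]
  exact hy

include h2 hψ1 hψ2 in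
/-- Two orthogonal bases of the same space have the same sum of values. -/
theorem chain (m : List V) : ∀ l : List V, OA Q l → OA Q m → sp (F := F) l = sp m →
    Sm Q ψ l = Sm Q ψ m := by
  induction m with
  | nil =>
    intro l hl _ h
    cases l with
    | nil => rfl
    | cons v l =>
      exfalso
      have h1 : v ∈ sp (F := F) (v :: l) := mem_sp (by simp)
      have h3 : sp (F := F) ([] : List V) = ⊥ := by unfold sp; simp
      rw [h, h3] at h1
      have : v = 0 := (Submodule.mem_bot F).1 h1
      apply ((OA_cons Q).1 hl).1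
      rw [this, map_zero]
  | cons w m ih =>
    intro l hl hm h
    have hw : w ∈ sp (F := F) l := by rw [h]; exact mem_sp (by simp)
    obtain ⟨l', h1⟩ := rep h2 hψ1 hψ2 l.length l rfl hl w hw ((OA_cons Q).1 hm).1
    have h3 : sp (F := F) (w :: l') = sp (w :: m) := h1.2.2.1.symm.trans h
    have h4 := ih l' ((OA_cons Q).1 h1.2.1).2.2 ((OA_cons Q).1 hm).2.2
      (le_antisymm (sp_tail h2 h1.2.1 hm h3) (sp_tail h2 hm h1.2.1 h3.symm))
    rw [h1.2.2.2]
    simp only [Sm, List.map_cons, List.sum_cons] at h4 ⊢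
    rw [h4]

end Chain

end Pool.Agent.Hhelper59.WittR
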