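import Mathlib

/-!
# Witt rings of fields and rings of elementary type

`W(F)` is the Witt-Grothendieck ring of `F` modulo the hyperbolic plane. It is generated by the
one-dimensional forms `⟨a⟩`, `a ∈ Fˣ`; the relations are `⟨a₁⟩ + ⋯ + ⟨a_n⟩ = ⟨b₁⟩ + ⋯ + ⟨b_m⟩`
for isometric diagonal forms, and `⟨1⟩ + ⟨-1⟩ = 0`. (In characteristic different from two every
nondegenerate quadratic form is diagonalisable.)
-/

namespace Pool.Agent.Hhelper59.WittR

universe u v w

/-- A commutative ring `R` together with a ring homomorphism `e : R → ℤ / 2`. -/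
structure Pair : Type (u + 1) where
  /-- the ring -/
  R : Type u
  [ring : CommRing R]
  /-- the ring map to `ℤ / 2` -/
  e : R →+* ZMod 2

attribute [instance] Pair.ring

namespace Pair

/-- Two pairs are isomorphic: there is an isomorphism of rings compatible with the maps to
`ℤ / 2`. -/
def IsIso (P : Pair.{u}) (Q : Pair.{v}) : Prop :=
  ∃ f : P.R ≃+* Q.R, ∀ x, Q.e (f x) = P.e x

/-- The group ring extension `(R, e) ↦ (R[C₂], e')`, `e'(a + b g) = e(a) + e(b)`. -/
noncomputable def ext (P : Pair.{u}) : Pair.{u} where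
  R := MonoidAlgebra P.R (Multiplicative (ZMod 2))
  e := MonoidAlgebra.liftNCRingHom P.e (1 : Multiplicative (ZMod 2) →* ZMod 2)
    fun _ _ => Commute.all _ _

/-- The fibre product `(R₁, e₁), (R₂, e₂) ↦ (R₁ ×_{ℤ/2} R₂, e)`, `e(x, y) = e₁(x) = e₂(y)`. -/
def fib (P : Pair.{u}) (Q : Pair.{v}) : Pair.{max u v} where
  R := RingHom.eqLocus (P.e.comp (RingHom.fst P.R Q.R)) (Q.e.comp (RingHom.snd P.R Q.R))
  e := (P.e.comp (RingHom.fst P.R Q.R)).comp (Subring.subtype _)

end Pair

/-! ### The Witt ring of a field -/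

section Field

variable (F : Type u) [Field F]

/-- The diagonal quadratic form `⟨a₁, …, a_n⟩`. -/
noncomputable def diag (l : List Fˣ) : QuadraticForm F (Fin l.length → F) :=
  QuadraticMap.weightedSumSquares F fun i => l.get i

variable {F}

/-- The element `⟨a₁⟩ + ⋯ + ⟨a_n⟩` of the group ring `ℤ[Fˣ]`. -/
noncomputable def formSum (l : List Fˣ) : MonoidAlgebra ℤ Fˣ :=
  (l.map fun a => MonoidAlgebra.of ℤ Fˣ a).sum

variable (F)

/-- The ideal of `ℤ[Fˣ]` generated by the differences of isometric diagonal forms and by the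
hyperbolic plane `⟨1, -1⟩`. -/
noncomputable def wittIdeal : Ideal (MonoidAlgebra ℤ Fˣ) :=
  Ideal.span ({x | ∃ l l' : List Fˣ, (diag F l).Equivalent (diag F l') ∧
    x = formSum l - formSum l'} ∪ {formSum [1, -1]})

/-- The Witt ring of a field (of characteristic not two). -/
abbrev WittRing : Type u := MonoidAlgebra ℤ Fˣ ⧸ wittIdeal F

/-- The augmentation `ℤ[G] → ℤ / 2`. -/
noncomputable def aug (G : Type u) [Monoid G] : MonoidAlgebra ℤ G →+* ZMod 2 :=
  (MonoidAlgebra.lift ℤ (ZMod 2) G 1 : MonoidAlgebra ℤ G →ₐ[ℤ] ZMod 2)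

lemma aug_of (G : Type u) [Monoid G] (a : G) : aug G (MonoidAlgebra.of ℤ G a) = 1 := by
  show (MonoidAlgebra.lift ℤ (ZMod 2) G 1) (MonoidAlgebra.of ℤ G a) = 1
  rw [MonoidAlgebra.lift_of]; rfl

lemma aug_formSum (l : List Fˣ) : aug Fˣ (formSum l) = (l.length : ZMod 2) := by
  induction l with
  | nil => simp [formSum]
  | cons a l ih =>
    have : formSum (a :: l) = MonoidAlgebra.of ℤ Fˣ a + formSum l := by simp [formSum]
    rw [this, map_add, ih, aug_of]
    push_cast [List.length_cons]
    ring

lemma length_eq_of_equivalent {l l' : List Fˣ} (h : (diag F l).Equivalent (diag F l')) :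
    l.length = l'.length := by
  obtain ⟨f⟩ := h
  have := f.toLinearEquiv.finrank_eq
  simpa using this

lemma wittIdeal_le_ker : wittIdeal F ≤ RingHom.ker (aug Fˣ) := by
  unfold wittIdeal
  rw [Ideal.span_le]
  rintro x (⟨l, l', h, rfl⟩ | rfl)
  · show aug Fˣ (formSum l - formSum l') = 0
    rw [map_sub, aug_formSum, aug_formSum, length_eq_of_equivalent F h, sub_self]
  · show aug Fˣ (formSum [1, -1]) = 0
    rw [aug_formSum]
    exact ZMod.natCast_self 2

/-- The Witt ring of a field together with the dimension modulo two. -/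
noncomputable def witt : Pair.{u} where
  R := WittRing F
  e := Ideal.Quotient.lift (wittIdeal F) (aug Fˣ) fun _ hx => wittIdeal_le_ker F hx

end Field

/-! ### Elementary type -/

/-- The smallest class of pairs, closed under isomorphism, which contains `(W(K), e_K)` for
`K = ℂ`, `ℝ`, `𝔽₃` and all finite extensions `K` of `ℚ₂`, and is closed under group ring extensions
and fibre products. -/
inductive IsElem : Pair.{u} → Prop
  | complex (P : Pair.{u}) : P.IsIso (witt ℂ) → IsElem P
  | real (P : Pair.{u}) : P.IsIso (witt ℝ) → IsElem P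
  | three (P : Pair.{u}) : P.IsIso (witt (ZMod 3)) → IsElem P
  | dyadic (P : Pair.{u}) (K : Type) [Field K] [Algebra ℚ_[2] K] [FiniteDimensional ℚ_[2] K] :
      P.IsIso (witt K) → IsElem P
  | ext (P Q : Pair.{u}) : IsElem P → Q.IsIso P.ext → IsElem Q
  | fib (P Q R : Pair.{u}) : IsElem P → IsElem Q → R.IsIso (P.fib Q) → IsElem R

/-- A ring is of elementary type if it is isomorphic to a ring in the class `IsElem`. -/
def IsElementaryType (R : Type u) [CommRing R] : Prop :=
  ∃ P : Pair.{u}, IsElem P ∧ Nonempty (R ≃+* P.R)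

end Pool.Agent.Hhelper59.WittR
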