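import Pool.Agent.Hhelper59.WittR.Abs
import Pool.Agent.Hhelper59.WittR.Chain

/-!
# The Witt ring of a field is the Witt ring of its quaternionic structure
-/

namespace Pool.Agent.Hhelper59.WittR

open Pool.Agent.Hhelper2

universe u v w

section

variable {F : Type u} [Field F]

lemma fs_of_eq {a b : SqClass F} {x y : Fˣ} (hx : sqClass x = a) (hy : sqClass y = b)
    (X Y : F) (h : (x : F) * X ^ 2 + (y : F) * Y ^ 2 = 1) : FieldSplit F a b :=
  ⟨x, y, hx, hy, X, Y, h⟩

lemma sqClass_mul (x y : Fˣ) : sqClass (x * y) = sqClass x * sqClass y := rfl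

lemma sqClass_sq (x : Fˣ) : sqClass (x * x) = 1 := by
  rw [sqClass, QuotientGroup.eq_one_iff, Subgroup.mem_square]
  exact ⟨x, rfl⟩

lemma sqClass_eq {x y : Fˣ} (h : sqClass x = sqClass y) : ∃ s : Fˣ, y = x * (s * s) := by
  rw [sqClass, sqClass, QuotientGroup.eq, Subgroup.mem_square] at h
  obtain ⟨s, hs⟩ := h
  exact ⟨s, by rw [← hs]; group⟩

lemma qax_field (h2 : (2 : F) ≠ 0) : QAx (QStr.ofField F) where
  sq a := by
    induction a using QuotientGroup.induction_on with
    | H x => exact sqClass_sq x
  split_one a := by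
    induction a using QuotientGroup.induction_on with
    | H x => exact ⟨1, x, rfl, rfl, 1, 0, by simp⟩
  one_split a := by
    induction a using QuotientGroup.induction_on with
    | H x => exact ⟨x, 1, rfl, rfl, 0, 1, by simp⟩
  split_neg a := by
    induction a using QuotientGroup.induction_on with
    | H x =>
      -- `x ((1+x⁻¹)/2)² - x ((1 - x⁻¹)/2)² = 1`
      refine ⟨x, -1 * x, rfl, rfl, (1 + (x : F)⁻¹) / 2, (1 - (x : F)⁻¹) / 2, ?_⟩
      have hx : (x : F) ≠ 0 := x.ne_zero
      push_cast
      field_simp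
      ring

/-- The class of the one-dimensional form `⟨x⟩` in the abstract Witt ring. -/
noncomputable def psi (F : Type u) [Field F] (x : F) : (absWitt (QStr.ofField F)).R :=
  open Classical in
  if h : x ≠ 0 then cl (QStr.ofField F) (sqClass (Units.mk0 x h)) else 0

lemma psi_unit (x : Fˣ) : psi F (x : F) = cl (QStr.ofField F) (sqClass x) := by
  unfold psi
  rw [dif_pos x.ne_zero, Units.mk0_val]

lemma psi_sq (x s : F) (hx : x ≠ 0) (hs : s ≠ 0) : psi F (s * s * x) = psi F x := by
  have h1 : s * s * x = ((Units.mk0 s hs * Units.mk0 s hs * Units.mk0 x hx : Fˣ) : F) := rfl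
  have h2 : x = (Units.mk0 x hx : Fˣ) := rfl
  rw [h1]
  conv_rhs => rw [h2]
  rw [psi_unit, psi_unit]
  congr 1
  show sqClass (Units.mk0 s hs * Units.mk0 s hs) * sqClass (Units.mk0 x hx) = _
  rw [sqClass_sq, one_mul]

lemma psi_add (a b : F) (ha : a ≠ 0) (hb : b ≠ 0) (hab : a + b ≠ 0) :
    psi F a + psi F b = psi F (a + b) + psi F (a * b * (a + b)) := by
  set x := Units.mk0 a ha with hx
  set y := Units.mk0 b hb with hy
  set z := Units.mk0 (a + b) hab with hz
  have h1 : a = (x : F) := rfl
  have h2 : b = (y : F) := rfl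
  have h3 : a + b = (z : F) := rfl
  have h4 : a * b * (a + b) = ((x * y * z : Fˣ) : F) := rfl
  rw [h4, h3]
  rw [h1, h2, psi_unit, psi_unit, psi_unit, psi_unit]
  refine cl_rel _ _ _ _ _ ?_ ?_
  · show sqClass (x * y) = sqClass (z * (x * y * z))
    have : z * (x * y * z) = x * y * (z * z) := by
      rw [mul_comm z, mul_assoc]
    rw [this, sqClass_mul (x * y) (z * z), sqClass_sq, mul_one]
  · refine ⟨x * z, y * z, rfl, rfl, (z : F)⁻¹, (z : F)⁻¹, ?_⟩
    have hz0 : (z : F) ≠ 0 := z.ne_zero
    push_cast
    field_simp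
    exact h3

/-! ### Lists and frames -/

lemma polar_wss {ι : Type*} [Fintype ι] (w : ι → Fˣ) (x y : ι → F) (h : ∀ i, x i * y i = 0) :
    QuadraticMap.polar (QuadraticMap.weightedSumSquares F w) x y = 0 := by
  unfold QuadraticMap.polar
  rw [QuadraticMap.weightedSumSquares_apply, QuadraticMap.weightedSumSquares_apply,
    QuadraticMap.weightedSumSquares_apply, ← Finset.sum_sub_distrib, ← Finset.sum_sub_distrib]
  refine Finset.sum_eq_zero fun i _ => ?_
  rw [← smul_sub, ← smul_sub]
  have : (x + y) i * (x + y) i - x i * x i - y i * y i = 2 * (x i * y i) := by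
    simp only [Pi.add_apply]; ring
  rw [this, h i, mul_zero, smul_zero]

lemma frame_OA {V : Type v} [AddCommGroup V] [Module F V] (Q : QuadraticForm F V) (l : List Fˣ)
    (f : (diag F l).IsometryEquiv Q) :
    OA Q (List.ofFn fun i => f (Pi.single i 1)) := by
  constructor
  · rw [List.pairwise_ofFn]
    intro i j hij
    have h1 : QuadraticMap.polar Q (f (Pi.single i 1)) (f (Pi.single j 1)) =
        QuadraticMap.polar (diag F l) (Pi.single i 1) (Pi.single j 1) := by
      unfold QuadraticMap.polar
      rw [← map_add, f.map_app, f.map_app, f.map_app]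
    rw [h1]
    refine polar_wss _ _ _ fun k => ?_
    by_cases hk : k = i
    · subst hk
      rw [Pi.single_eq_of_ne hij.ne, mul_zero]
    · rw [Pi.single_eq_of_ne hk, zero_mul]
  · intro v hv
    obtain ⟨i, rfl⟩ := (List.mem_ofFn' _ _).1 hv
    rw [f.map_app]
    unfold diag
    rw [QuadraticMap.weightedSumSquares_apply, Finset.sum_eq_single i]
    · rw [Pi.single_eq_same, mul_one, Units.smul_def, smul_eq_mul, mul_one]
      exact Units.ne_zero _
    · intro j _ hj
      rw [Pi.single_eq_of_ne hj, mul_zero, smul_zero]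
    · intro h; exact absurd (Finset.mem_univ _) h

lemma frame_sp {V : Type v} [AddCommGroup V] [Module F V] (Q : QuadraticForm F V) (l : List Fˣ)
    (f : (diag F l).IsometryEquiv Q) :
    sp (F := F) (List.ofFn fun i => f (Pi.single i 1)) = ⊤ := by
  have h1 : {v | v ∈ List.ofFn fun i => f (Pi.single i (1 : F))} =
      (f.toLinearEquiv : (Fin l.length → F) →ₗ[F] V) '' Set.range fun i => Pi.single i (1 : F) := by
    ext v
    simp only [Set.mem_ofPred_eq, List.mem_ofFn, Set.mem_image, Set.mem_range,
      exists_exists_eq_and]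
    rfl
  unfold sp
  rw [h1, Submodule.span_image]
  have h2 : Submodule.span F (Set.range fun i : Fin l.length => Pi.single i (1 : F)) = ⊤ := by
    have := (Pi.basisFun F (Fin l.length)).span_eq
    rw [← this]
    congr 2
    funext i
    exact (Pi.basisFun_apply _ _ _).symm
  rw [h2, Submodule.map_top]
  exact LinearEquiv.range _

lemma frame_Sm {V : Type v} [AddCommGroup V] [Module F V] (Q : QuadraticForm F V) (l : List Fˣ)
    (f : (diag F l).IsometryEquiv Q) :
    Sm Q (psi F) (List.ofFn fun i => f (Pi.single i 1)) =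
      (l.map fun a => cl (QStr.ofField F) (sqClass a)).sum := by
  unfold Sm
  rw [List.map_ofFn]
  have : ((fun v => psi F (Q v)) ∘ fun i : Fin l.length => f (Pi.single i (1 : F))) =
      fun i => cl (QStr.ofField F) (sqClass (l.get i)) := by
    funext i
    show psi F (Q (f (Pi.single i 1))) = _
    rw [f.map_app, ← psi_unit]
    congr 1
    unfold diag
    rw [QuadraticMap.weightedSumSquares_apply, Finset.sum_eq_single i]
    · rw [Pi.single_eq_same, mul_one, Units.smul_def, smul_eq_mul, mul_one]
    · intro j _ hj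
      rw [Pi.single_eq_of_ne hj, mul_zero, smul_zero]
    · intro h; exact absurd (Finset.mem_univ _) h
  rw [this]
  conv_rhs => rw [← List.ofFn_get l, List.map_ofFn]
  rfl

/-- Isometric diagonal forms have the same class in the abstract Witt ring. -/
lemma sum_eq_of_equivalent (h2 : (2 : F) ≠ 0) {l l' : List Fˣ}
    (h : (diag F l).Equivalent (diag F l')) :
    (l.map fun a => cl (QStr.ofField F) (sqClass a)).sum =
      (l'.map fun a => cl (QStr.ofField F) (sqClass a)).sum := by
  obtain ⟨f⟩ := h
  rw [← frame_Sm (diag F l') l f, ← frame_Sm (diag F l') l' (QuadraticMap.IsometryEquiv.refl _)]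
  exact chain h2 psi_sq psi_add _ _ (frame_OA _ _ _) (frame_OA _ _ _)
    ((frame_sp _ _ _).trans (frame_sp _ _ _).symm)

/-! ### Relations in `W(F)` -/

/-- The class of `⟨a⟩` in the Witt ring. -/
noncomputable def wc (F : Type u) [Field F] : Fˣ →* (witt F).R :=
  ((Ideal.Quotient.mk (wittIdeal F) : MonoidAlgebra ℤ Fˣ →* MonoidAlgebra ℤ Fˣ ⧸ wittIdeal F)).comp
    (MonoidAlgebra.of ℤ Fˣ)

lemma mk_formSum (l : List Fˣ) : (Ideal.Quotient.mk (wittIdeal F) (formSum l) : (witt F).R) =
    (l.map (wc F)).sum := by
  unfold formSum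
  rw [map_list_sum, List.map_map]
  rfl

lemma wc_rel {l l' : List Fˣ} (h : (diag F l).Equivalent (diag F l')) :
    (l.map (wc F)).sum = (l'.map (wc F)).sum := by
  rw [← mk_formSum, ← mk_formSum, ← sub_eq_zero]
  have : (Ideal.Quotient.mk (wittIdeal F) (formSum l - formSum l') : (witt F).R) = 0 :=
    Ideal.Quotient.eq_zero_iff_mem.2 (Ideal.subset_span (Or.inl ⟨l, l', h, rfl⟩))
  rw [map_sub] at this
  exact this

lemma wc_hyp : (1 : (witt F).R) + wc F (-1) = 0 := by
  have : (Ideal.Quotient.mk (wittIdeal F) (formSum [1, -1]) : (witt F).R) = 0 :=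
    Ideal.Quotient.eq_zero_iff_mem.2 (Ideal.subset_span (Or.inr rfl))
  rw [mk_formSum] at this
  refine Eq.trans ?_ this
  show 1 + wc F (-1) = wc F 1 + (wc F (-1) + 0)
  rw [map_one, add_zero]

lemma wc_sq (s : Fˣ) : wc F (s * s) = 1 := by
  have h1 : ∀ (p : Fˣ) (v : Fin 1 → F), diag F [p] v = p * (v 0 * v 0) := by
    intro p v
    unfold diag
    rw [QuadraticMap.weightedSumSquares_apply]
    exact Fin.sum_univ_one _
  have h : (diag F [s * s]).Equivalent (diag F [1]) := by
    refine ⟨{ (LinearEquiv.smulOfUnit s : (Fin 1 → F) ≃ₗ[F] (Fin 1 → F)) with map_app' := ?_ }⟩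
    intro x
    show diag F [1] (s • x) = diag F [s * s] x
    rw [h1, h1]
    show ((1 : Fˣ) : F) * ((s * x 0) * (s * x 0)) = _
    push_cast
    ring
  have := wc_rel h
  simp only [List.map_cons, List.map_nil, List.sum_cons, List.sum_nil, add_zero] at this
  rw [this, map_one]

/-- A binary isometry. -/
lemma binary (a b c : Fˣ) (X Y : F) (h : (a : F) * X ^ 2 + b * Y ^ 2 = c) :
    (diag F [c, a * b * c]).Equivalent (diag F [a, b]) := by
  have hc : (c : F) ≠ 0 := c.ne_zero
  let e : (Fin 2 → F) ≃ₗ[F] (Fin 2 → F) :=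
    { toFun := fun v => ![v 0 * X - v 1 * (b * Y), v 0 * Y + v 1 * (a * X)]
      invFun := fun v => ![(c : F)⁻¹ * (a * X * v 0 + b * Y * v 1),
        (c : F)⁻¹ * (X * v 1 - Y * v 0)]
      map_add' := by
        intro v w
        funext i
        fin_cases i
        · simp; ring
        · simp; ring
      map_smul' := by
        intro r v
        funext i
        fin_cases i
        · simp; ring
        · simp; ring
      left_inv := by
        intro v
        funext i
        fin_cases i
        · simp
          field_simp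
          rw [← h]; ring
        · simp
          field_simp
          rw [← h]; ring
      right_inv := by
        intro v
        funext i
        fin_cases i
        · simp
          field_simp
          rw [← h]; ring
        · simp
          field_simp
          rw [← h]; ring }
  refine ⟨{ e with map_app' := ?_ }⟩
  intro v
  have h1 : ∀ (p q : Fˣ) (v : Fin 2 → F), diag F [p, q] v = p * (v 0 * v 0) + q * (v 1 * v 1) := by
    intro p q v
    unfold diag
    rw [QuadraticMap.weightedSumSquares_apply]
    exact Fin.sum_univ_two _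
  show diag F [a, b] (e v) = diag F [c, a * b * c] v
  rw [h1, h1]
  show (a : F) * ((v 0 * X - v 1 * (b * Y)) * (v 0 * X - v 1 * (b * Y))) +
    b * ((v 0 * Y + v 1 * (a * X)) * (v 0 * Y + v 1 * (a * X))) = _
  push_cast
  rw [← h]
  ring

/-- The class of a square class in the Witt ring. -/
noncomputable def wcl (F : Type u) [Field F] : SqClass F →* (witt F).R :=
  (Units.coeHom (witt F).R).comp (QuotientGroup.lift (Subgroup.square Fˣ) (wc F).toHomUnits (by
    intro x hx
    rw [Subgroup.mem_square] at hx
    obtain ⟨s, rfl⟩ := hx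
    apply Units.ext
    exact wc_sq s))

lemma wcl_sqClass (x : Fˣ) : wcl F (sqClass x) = wc F x := rfl

theorem field_iso (h2 : (2 : F) ≠ 0) : (absWitt (QStr.ofField F)).IsIso (witt F) := by
  -- from the abstract Witt ring
  obtain ⟨f, hf⟩ := abs_lift (QStr.ofField F) (R := (witt F).R) (wcl F) (by
    intro a b c d h1 h3
    induction a using QuotientGroup.induction_on with
    | H a =>
    induction b using QuotientGroup.induction_on with
    | H b =>
    induction c using QuotientGroup.induction_on with
    | H c =>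
    induction d using QuotientGroup.induction_on with
    | H d =>
    obtain ⟨x, y, hx, hy, X, Y, h⟩ := h3
    have hx' : sqClass x = sqClass (a * c) := hx
    have hy' : sqClass y = sqClass (b * c) := hy
    obtain ⟨s, hs⟩ := sqClass_eq hx'.symm
    obtain ⟨t, ht⟩ := sqClass_eq hy'.symm
    have h4 : (a : F) * (c * s * X) ^ 2 + b * (c * t * Y) ^ 2 = c := by
      have h5 : (c : F) * (x * X ^ 2 + y * Y ^ 2) = c := by rw [h, mul_one]
      rw [hs, ht] at h5
      push_cast at h5
      linear_combination h5
    have h6 := wc_rel (binary a b c _ _ h4)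
    simp only [List.map_cons, List.map_nil, List.sum_cons, List.sum_nil, add_zero] at h6
    show wc F a + wc F b = wc F c + wc F d
    rw [← h6]
    congr 1
    have h7 : sqClass (a * b) = sqClass (c * d) := h1
    have h8 : sqClass (a * b * c) = sqClass d := by
      rw [sqClass_mul, h7, ← sqClass_mul]
      have : c * d * c = d * (c * c) := by rw [mul_comm c d, mul_assoc]
      rw [this, sqClass_mul, sqClass_sq, mul_one]
    rw [← wcl_sqClass, ← wcl_sqClass, h8]) wc_hyp
  have hf' : ∀ a : Fˣ, f (cl (QStr.ofField F) (sqClass a)) = wc F a := fun a => hf _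
  -- to the abstract Witt ring
  let S := QStr.ofField F
  let G0 : MonoidAlgebra ℤ Fˣ →+* (absWitt S).R :=
    (MonoidAlgebra.lift ℤ (absWitt S).R Fˣ ((cl S).comp (QuotientGroup.mk' (Subgroup.square Fˣ))) :
      MonoidAlgebra ℤ Fˣ →ₐ[ℤ] (absWitt S).R)
  have hG0 : ∀ a, G0 (MonoidAlgebra.of ℤ Fˣ a) = cl S (sqClass a) := fun a => by
    show (MonoidAlgebra.lift ℤ (absWitt S).R Fˣ
      ((cl S).comp (QuotientGroup.mk' (Subgroup.square Fˣ)))) (MonoidAlgebra.of ℤ Fˣ a) = _
    rw [MonoidAlgebra.lift_of]
    rfl
  have hG1 : ∀ l : List Fˣ, G0 (formSum l) = (l.map fun a => cl S (sqClass a)).sum := by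
    intro l
    unfold formSum
    rw [map_list_sum, List.map_map]
    congr 1
    refine List.map_congr_left fun a _ => ?_
    exact hG0 a
  have hk : wittIdeal F ≤ RingHom.ker G0 := by
    unfold wittIdeal
    rw [Ideal.span_le]
    rintro x (⟨l, l', h, rfl⟩ | rfl)
    · show G0 _ = 0
      rw [map_sub, hG1, hG1, sum_eq_of_equivalent h2 h, sub_self]
    · show G0 _ = 0
      rw [hG1]
      simp only [List.map_cons, List.map_nil, List.sum_cons, List.sum_nil, add_zero]
      have h1 : cl S (sqClass 1) = 1 := map_one (cl S)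
      rw [h1]
      exact cl_hyp S
  let g : (witt F).R →+* (absWitt S).R := Ideal.Quotient.lift (wittIdeal F) G0 fun _ hx => hk hx
  have hg : ∀ a, g (wc F a) = cl S (sqClass a) := fun a => hG0 a
  refine ⟨RingEquiv.ofRingHom f g ?_ ?_, ?_⟩
  · refine quot_hom_ext fun a => ?_
    show f (g (wc F a)) = wc F a
    rw [hg]
    exact hf' a
  · refine abs_hom_ext fun a => ?_
    induction a using QuotientGroup.induction_on with
    | H a =>
    show g (f (cl S (sqClass a))) = cl S (sqClass a)
    rw [hf' a, hg]
  · intro x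
    have : ((witt F).e.comp f) = (absWitt S).e := by
      refine abs_hom_ext fun a => ?_
      induction a using QuotientGroup.induction_on with
      | H a =>
      show (witt F).e (f (cl S (sqClass a))) = (absWitt S).e (cl S (sqClass a))
      rw [hf' a, absWitt_e_cl]
      show aug Fˣ (MonoidAlgebra.of ℤ Fˣ a) = 1
      exact aug_of _ _
    exact RingHom.congr_fun this x

end

end Pool.Agent.Hhelper59.WittR
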