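import Pool.Agent.Hhelper59.WittR.Abs

/-!
# The Witt ring of a product of quaternionic structures is the fibre product
-/

namespace Pool.Agent.Hhelper59.WittR

open Pool.Agent.Hhelper2

universe u v w

/-- The integral augmentation. -/
noncomputable def augZ (G : Type u) [Monoid G] : MonoidAlgebra ℤ G →+* ℤ :=
  (MonoidAlgebra.lift ℤ ℤ G 1 : MonoidAlgebra ℤ G →ₐ[ℤ] ℤ)

lemma augZ_of (G : Type u) [Monoid G] (a : G) : augZ G (MonoidAlgebra.of ℤ G a) = 1 := by
  show (MonoidAlgebra.lift ℤ ℤ G 1) (MonoidAlgebra.of ℤ G a) = 1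
  rw [MonoidAlgebra.lift_of]; rfl

lemma ma_hom_ext {G : Type u} [Monoid G] {R : Type v} [Ring R] {f g : MonoidAlgebra ℤ G →+* R}
    (h : ∀ a, f (MonoidAlgebra.of ℤ G a) = g (MonoidAlgebra.of ℤ G a)) : f = g := by
  refine RingHom.ext fun x => ?_
  induction x using MonoidAlgebra.induction_on with
  | of a => exact h a
  | add y z hy hz => rw [map_add, map_add, hy, hz]
  | smul n y hy => rw [map_zsmul, map_zsmul, hy]

section Ideal

variable (S : QStr.{u}) (hS : QAx S)

include hS in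
lemma closure_mul (c x : MonoidAlgebra ℤ S.G) (hx : x ∈ AddSubgroup.closure (QRel S)) :
    c * x ∈ AddSubgroup.closure (QRel S) := by
  induction c using MonoidAlgebra.induction_on with
  | add y z hy hz => rw [add_mul]; exact add_mem hy hz
  | smul n y hy => rw [smul_mul_assoc]; exact zsmul_mem hy n
  | of g =>
    induction hx using AddSubgroup.closure_induction with
    | zero => rw [mul_zero]; exact zero_mem _
    | add y z _ _ hy hz => rw [mul_add]; exact add_mem hy hz
    | neg y _ hy => rw [mul_neg]; exact neg_mem hy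
    | mem x hx =>
      obtain ⟨a, b, c, d, h1, h2, rfl⟩ := hx
      refine AddSubgroup.subset_closure ⟨g * a, g * b, g * c, g * d, ?_, ?_, ?_⟩
      · rw [mul_mul_mul_comm, h1, mul_mul_mul_comm]
      · rw [mul_mul_mul_comm, mul_mul_mul_comm g b, hS.sq, one_mul, one_mul]
        exact h2
      · rw [mul_sub, mul_add, mul_add, map_mul, map_mul, map_mul, map_mul]

include hS in
lemma mul_hyp (c : MonoidAlgebra ℤ S.G) :
    c * hyp S - (augZ S.G c) • hyp S ∈ AddSubgroup.closure (QRel S) := by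
  induction c using MonoidAlgebra.induction_on with
  | add y z hy hz =>
    rw [map_add, add_mul, add_smul]
    have := add_mem hy hz
    convert this using 1
    abel
  | smul n y hy =>
    rw [map_zsmul, smul_mul_assoc, smul_assoc, ← smul_sub]
    exact zsmul_mem hy n
  | of g =>
    rw [augZ_of, one_smul]
    refine AddSubgroup.subset_closure ⟨g, g * S.neg, 1, S.neg, ?_, ?_, ?_⟩
    · rw [← mul_assoc, hS.sq]
    · rw [mul_one, mul_one, mul_comm g S.neg]
      exact hS.split_neg g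
    · unfold hyp
      rw [mul_add, ← map_mul, ← map_mul, mul_one]

include hS in
lemma mem_QIdeal {p : MonoidAlgebra ℤ S.G} (hp : p ∈ QIdeal S) :
    ∃ k : ℤ, p - k • hyp S ∈ AddSubgroup.closure (QRel S) := by
  unfold QIdeal at hp
  induction hp using Submodule.span_induction with
  | mem x hx =>
    rcases hx with hx | rfl
    · exact ⟨0, by rw [zero_smul, sub_zero]; exact AddSubgroup.subset_closure hx⟩
    · exact ⟨1, by rw [one_smul, sub_self]; exact zero_mem _⟩
  | zero => exact ⟨0, by rw [zero_smul, sub_zero]; exact zero_mem _⟩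
  | add x y _ _ hx hy =>
    obtain ⟨k, hk⟩ := hx
    obtain ⟨l, hl⟩ := hy
    refine ⟨k + l, ?_⟩
    have := add_mem hk hl
    rw [add_smul]
    convert this using 1
    abel
  | smul a x _ hx =>
    obtain ⟨k, hk⟩ := hx
    refine ⟨k * augZ S.G a, ?_⟩
    have h1 := closure_mul S hS a _ hk
    have h2 := zsmul_mem (mul_hyp S hS a) k
    have := add_mem h1 h2
    convert this using 1
    rw [smul_eq_mul, mul_sub, mul_smul, smul_sub, mul_smul_comm]
    abel

end Ideal

/-- The quotient map. -/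
noncomputable def mkR (S : QStr.{u}) : MonoidAlgebra ℤ S.G →+* (absWitt S).R :=
  Ideal.Quotient.mk (QIdeal S)

lemma mkR_eq_zero (S : QStr.{u}) {p : MonoidAlgebra ℤ S.G} (h : mkR S p = 0) : p ∈ QIdeal S :=
  Ideal.Quotient.eq_zero_iff_mem.1 h

lemma augZ_closure (S : QStr.{u}) {p : MonoidAlgebra ℤ S.G}
    (hp : p ∈ AddSubgroup.closure (QRel S)) : augZ S.G p = 0 := by
  have : AddSubgroup.closure (QRel S) ≤ (augZ S.G : MonoidAlgebra ℤ S.G →+ ℤ).ker := by
    rw [AddSubgroup.closure_le]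
    rintro x ⟨a, b, c, d, -, -, rfl⟩
    show augZ S.G _ = 0
    rw [map_sub, map_add, map_add, augZ_of, augZ_of, augZ_of, augZ_of, sub_self]
  exact this hp

lemma augZ_hyp (S : QStr.{u}) : augZ S.G (hyp S) = 2 := by
  unfold hyp
  rw [map_add, augZ_of, augZ_of]
  rfl

section Prod

variable (S : QStr.{u}) (T : QStr.{v}) (hS : QAx S) (hT : QAx T)

/-- `ℤ[G_S] → W(S × T)`. -/
noncomputable def phi1 : MonoidAlgebra ℤ S.G →+* (absWitt (S.prod T)).R :=
  (MonoidAlgebra.lift ℤ (absWitt (S.prod T)).R S.G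
    ((cl (S.prod T)).comp (MonoidHom.inl S.G T.G)) : MonoidAlgebra ℤ S.G →ₐ[ℤ] _)

/-- `ℤ[G_T] → W(S × T)`. -/
noncomputable def phi2 : MonoidAlgebra ℤ T.G →+* (absWitt (S.prod T)).R :=
  (MonoidAlgebra.lift ℤ (absWitt (S.prod T)).R T.G
    ((cl (S.prod T)).comp (MonoidHom.inr S.G T.G)) : MonoidAlgebra ℤ T.G →ₐ[ℤ] _)

/-- The element `(a, b)` of the product. -/
def pr (a : S.G) (b : T.G) : (S.prod T).G := (a, b)

lemma phi1_of (a : S.G) : phi1 S T (MonoidAlgebra.of ℤ S.G a) = cl (S.prod T) (pr S T a 1) := by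
  show (MonoidAlgebra.lift ℤ (absWitt (S.prod T)).R S.G
    ((cl (S.prod T)).comp (MonoidHom.inl S.G T.G))) (MonoidAlgebra.of ℤ S.G a) = _
  rw [MonoidAlgebra.lift_of]
  rfl

lemma phi2_of (a : T.G) : phi2 S T (MonoidAlgebra.of ℤ T.G a) = cl (S.prod T) (pr S T 1 a) := by
  show (MonoidAlgebra.lift ℤ (absWitt (S.prod T)).R T.G
    ((cl (S.prod T)).comp (MonoidHom.inr S.G T.G))) (MonoidAlgebra.of ℤ T.G a) = _
  rw [MonoidAlgebra.lift_of]
  rfl

lemma pr_mul (a a' : S.G) (b b' : T.G) : pr S T a b * pr S T a' b' = pr S T (a * a') (b * b') :=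
  rfl

lemma pr_one : pr S T 1 1 = 1 := rfl

include hT in
lemma phi1_closure {p : MonoidAlgebra ℤ S.G} (hp : p ∈ AddSubgroup.closure (QRel S)) :
    phi1 S T p = 0 := by
  have : AddSubgroup.closure (QRel S) ≤ (phi1 S T : MonoidAlgebra ℤ S.G →+ (absWitt (S.prod T)).R).ker := by
    rw [AddSubgroup.closure_le]
    rintro x ⟨a, b, c, d, h1, h2, rfl⟩
    show phi1 S T _ = 0
    rw [map_sub, map_add, map_add, phi1_of, phi1_of, phi1_of, phi1_of, sub_eq_zero]
    refine cl_rel _ _ _ _ _ ?_ ?_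
    · rw [pr_mul, pr_mul, h1]
    · rw [pr_mul, pr_mul, one_mul]
      exact ⟨h2, hT.split_one _⟩
  exact this hp

include hS in
lemma phi2_closure {p : MonoidAlgebra ℤ T.G} (hp : p ∈ AddSubgroup.closure (QRel T)) :
    phi2 S T p = 0 := by
  have : AddSubgroup.closure (QRel T) ≤ (phi2 S T : MonoidAlgebra ℤ T.G →+ (absWitt (S.prod T)).R).ker := by
    rw [AddSubgroup.closure_le]
    rintro x ⟨a, b, c, d, h1, h2, rfl⟩
    show phi2 S T _ = 0
    rw [map_sub, map_add, map_add, phi2_of, phi2_of, phi2_of, phi2_of, sub_eq_zero]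
    refine cl_rel _ _ _ _ _ ?_ ?_
    · rw [pr_mul, pr_mul, h1]
    · rw [pr_mul, pr_mul, one_mul]
      exact ⟨hS.split_one _, h2⟩
  exact this hp

lemma exists_Phi : ∃ Φ : (absWitt (S.prod T)).R →+* (absWitt S).R × (absWitt T).R,
    ∀ a b, Φ (cl (S.prod T) (pr S T a b)) = (cl S a, cl T b) := by
  obtain ⟨Φ, hΦ⟩ := abs_lift (S.prod T) (R := (absWitt S).R × (absWitt T).R)
    ((cl S).prodMap (cl T)) (by
      rintro ⟨a, a'⟩ ⟨b, b'⟩ ⟨c, c'⟩ ⟨d, d'⟩ h1 h2
      refine Prod.ext ?_ ?_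
      · exact cl_rel S a b c d (congrArg Prod.fst h1) h2.1
      · exact cl_rel T a' b' c' d' (congrArg Prod.snd h1) h2.2) (by
    exact Prod.ext (cl_hyp S) (cl_hyp T))
  exact ⟨Φ, fun a b => hΦ (pr S T a b)⟩

include hS hT in
lemma cl_pr (a : S.G) (b : T.G) : cl (S.prod T) (pr S T a b) =
    cl (S.prod T) (pr S T a 1) + cl (S.prod T) (pr S T 1 b) - 1 := by
  have h1 : (1 : (absWitt (S.prod T)).R) = cl (S.prod T) (pr S T 1 1) := (map_one _).symm
  rw [eq_sub_iff_add_eq, h1]
  refine cl_rel _ _ _ _ _ ?_ ?_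
  · simp only [pr_mul, mul_one, one_mul]
  · rw [pr_mul, pr_mul, hS.sq, mul_one, one_mul, mul_one]
    exact ⟨hS.split_one _, hT.one_split _⟩

include hS hT in
lemma decomp (x : (absWitt (S.prod T)).R) : ∃ p q, x = phi1 S T p + phi2 S T q := by
  refine abs_induction (p := fun x => ∃ p q, x = phi1 S T p + phi2 S T q) ?_ ?_ ?_ ?_ x
  · exact ⟨0, 0, by rw [map_zero, map_zero, add_zero]⟩
  · rintro ⟨a, b⟩
    refine ⟨MonoidAlgebra.of ℤ S.G a, MonoidAlgebra.of ℤ T.G b - 1, ?_⟩
    rw [map_sub, map_one, phi1_of, phi2_of, ← add_sub_assoc]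
    exact cl_pr S T hS hT a b
  · rintro x y ⟨p, q, rfl⟩ ⟨p', q', rfl⟩
    exact ⟨p + p', q + q', by rw [map_add, map_add]; abel⟩
  · rintro x ⟨p, q, rfl⟩
    exact ⟨-p, -q, by rw [map_neg, map_neg]; abel⟩

include hS hT in
lemma absWitt_prod : (absWitt (S.prod T)).IsIso ((absWitt S).fib (absWitt T)) := by
  obtain ⟨Φ, hΦ⟩ := exists_Phi S T
  -- values on the two pieces
  have hΦ1 : ∀ p, Φ (phi1 S T p) = (mkR S p,
      ((augZ S.G p : ℤ) : (absWitt T).R)) := by
    intro p
    have : Φ.comp (phi1 S T) = (mkR S).prod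
        ((Int.castRingHom (absWitt T).R).comp (augZ S.G)) := by
      refine ma_hom_ext fun a => ?_
      show Φ (phi1 S T _) = (_, ((augZ S.G (MonoidAlgebra.of ℤ S.G a) : ℤ) : (absWitt T).R))
      rw [phi1_of, hΦ, augZ_of, map_one, Int.cast_one]
      rfl
    exact RingHom.congr_fun this p
  have hΦ2 : ∀ q, Φ (phi2 S T q) = (((augZ T.G q : ℤ) : (absWitt S).R),
      mkR T q) := by
    intro q
    have : Φ.comp (phi2 S T) = ((Int.castRingHom (absWitt S).R).comp (augZ T.G)).prod
        (mkR T) := by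
      refine ma_hom_ext fun a => ?_
      show Φ (phi2 S T _) = (((augZ T.G (MonoidAlgebra.of ℤ T.G a) : ℤ) : (absWitt S).R), _)
      rw [phi2_of, hΦ, augZ_of, map_one, Int.cast_one]
      rfl
    exact RingHom.congr_fun this q
  -- compatibility with the maps to `ℤ / 2`
  have he1 : ∀ x, (absWitt S).e (Φ x).1 = (absWitt (S.prod T)).e x := by
    intro x
    have : ((absWitt S).e.comp (RingHom.fst _ _)).comp Φ = (absWitt (S.prod T)).e := by
      refine abs_hom_ext ?_
      rintro ⟨a, b⟩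
      show (absWitt S).e (Φ (cl (S.prod T) (pr S T a b))).1 = _
      rw [hΦ, absWitt_e_cl, absWitt_e_cl]
    exact RingHom.congr_fun this x
  have he2 : ∀ x, (absWitt T).e (Φ x).2 = (absWitt (S.prod T)).e x := by
    intro x
    have : ((absWitt T).e.comp (RingHom.snd _ _)).comp Φ = (absWitt (S.prod T)).e := by
      refine abs_hom_ext ?_
      rintro ⟨a, b⟩
      show (absWitt T).e (Φ (cl (S.prod T) (pr S T a b))).2 = _
      rw [hΦ, absWitt_e_cl, absWitt_e_cl]
    exact RingHom.congr_fun this x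
  -- injectivity
  have hinj : Function.Injective Φ := by
    rw [injective_iff_map_eq_zero]
    intro x hx
    obtain ⟨p, q, rfl⟩ := decomp S T hS hT x
    rw [map_add, hΦ1, hΦ2] at hx
    have hx1 : mkR S p + ((augZ T.G q : ℤ) : (absWitt S).R) = 0 :=
      congrArg Prod.fst hx
    have hx2 : ((augZ S.G p : ℤ) : (absWitt T).R) + mkR T q = 0 :=
      congrArg Prod.snd hx
    have hp : p + ((augZ T.G q : ℤ) : MonoidAlgebra ℤ S.G) ∈ QIdeal S := by
      apply mkR_eq_zero
      rw [map_add, map_intCast]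
      exact hx1
    have hq : q + ((augZ S.G p : ℤ) : MonoidAlgebra ℤ T.G) ∈ QIdeal T := by
      apply mkR_eq_zero
      rw [map_add, map_intCast, add_comm]
      exact hx2
    obtain ⟨k, hk⟩ := mem_QIdeal S hS hp
    obtain ⟨l, hl⟩ := mem_QIdeal T hT hq
    have hk1 := augZ_closure S hk
    have hl1 := augZ_closure T hl
    rw [map_sub, map_add, map_zsmul, map_intCast, augZ_hyp] at hk1 hl1
    have hk2 := phi1_closure S T hT hk
    have hl2 := phi2_closure S T hS hl
    rw [map_sub, map_add, map_zsmul, map_intCast] at hk2 hl2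
    have hkl : k = l := by
      simp only [smul_eq_mul, Int.cast_id] at hk1 hl1
      omega
    subst hkl
    have hsum : (augZ T.G q : ℤ) + augZ S.G p = 2 * k := by
      simp only [smul_eq_mul, Int.cast_id] at hk1 hl1
      omega
    have e1 : phi1 S T (hyp S) = 1 + cl (S.prod T) (pr S T S.neg 1) := by
      unfold hyp
      rw [map_add, phi1_of, phi1_of, pr_one, map_one]
    have e2 : phi2 S T (hyp T) = 1 + cl (S.prod T) (pr S T 1 T.neg) := by
      unfold hyp
      rw [map_add, phi2_of, phi2_of, pr_one, map_one]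
    have e3 : cl (S.prod T) (pr S T S.neg 1) + cl (S.prod T) (pr S T 1 T.neg) = 0 := by
      have h1 := cl_pr S T hS hT S.neg T.neg
      have h2 : cl (S.prod T) (pr S T S.neg T.neg) = -1 := cl_neg (S.prod T)
      rw [h2, eq_sub_iff_add_eq] at h1
      rw [← h1]
      ring
    rw [e1] at hk2
    rw [e2] at hl2
    have e4 : (((augZ T.G q : ℤ) : (absWitt (S.prod T)).R)) + ((augZ S.G p : ℤ) : _) = 2 * k := by
      exact_mod_cast congrArg (fun n : ℤ => ((n : ℤ) : (absWitt (S.prod T)).R)) hsum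
    simp only [zsmul_eq_mul] at hk2 hl2
    linear_combination hk2 + hl2 + (k : (absWitt (S.prod T)).R) * e3 - e4
  -- surjectivity onto the fibre product
  have hsur1 : ∀ x : (absWitt S).R, ∃ (n : ℤ) (z : (absWitt (S.prod T)).R),
      Φ z = (x - n, 0) := by
    intro x
    refine abs_induction (p := fun x => ∃ (n : ℤ) (z : (absWitt (S.prod T)).R),
      Φ z = (x - n, 0)) ⟨0, 0, by simp; rfl⟩ ?_ ?_ ?_ x
    · intro a
      refine ⟨1, cl (S.prod T) (pr S T a 1) - 1, ?_⟩
      rw [map_sub, hΦ, map_one, map_one]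
      refine Prod.ext ?_ ?_
      · simp
      · simp
    · rintro x y ⟨n, z, hz⟩ ⟨m, w, hw⟩
      refine ⟨n + m, z + w, ?_⟩
      rw [map_add, hz, hw]
      refine Prod.ext ?_ ?_
      · simp only [Prod.fst_add]
        push_cast
        ring
      · simp
    · rintro x ⟨n, z, hz⟩
      refine ⟨-n, -z, ?_⟩
      rw [map_neg, hz]
      refine Prod.ext ?_ ?_
      · simp only [Prod.fst_neg]
        push_cast
        ring
      · simp
  have hsur2 : ∀ y : (absWitt T).R, ∃ (n : ℤ) (z : (absWitt (S.prod T)).R),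
      Φ z = (0, y - n) := by
    intro y
    refine abs_induction (p := fun y => ∃ (n : ℤ) (z : (absWitt (S.prod T)).R),
      Φ z = (0, y - n)) ⟨0, 0, by simp; rfl⟩ ?_ ?_ ?_ y
    · intro a
      refine ⟨1, cl (S.prod T) (pr S T 1 a) - 1, ?_⟩
      rw [map_sub, hΦ, map_one, map_one]
      refine Prod.ext ?_ ?_
      · simp
      · simp
    · rintro x y ⟨n, z, hz⟩ ⟨m, w, hw⟩
      refine ⟨n + m, z + w, ?_⟩
      rw [map_add, hz, hw]
      refine Prod.ext ?_ ?_
      · simp
      · simp only [Prod.snd_add]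
        push_cast
        ring
    · rintro x ⟨n, z, hz⟩
      refine ⟨-n, -z, ?_⟩
      rw [map_neg, hz]
      refine Prod.ext ?_ ?_
      · simp
      · simp only [Prod.snd_neg]
        push_cast
        ring
  have htwo : Φ (1 - cl (S.prod T) (pr S T S.neg 1)) = (2, 0) := by
    rw [map_sub, hΦ, map_one, map_one, cl_neg]
    refine Prod.ext ?_ ?_
    · show (1 : (absWitt S).R) - -1 = 2
      ring
    · show (1 : (absWitt T).R) - 1 = 0
      ring
  have hmem : ∀ x, Φ x ∈ RingHom.eqLocus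
      ((absWitt S).e.comp (RingHom.fst (absWitt S).R (absWitt T).R))
      ((absWitt T).e.comp (RingHom.snd (absWitt S).R (absWitt T).R)) := by
    intro x
    show (absWitt S).e (Φ x).1 = (absWitt T).e (Φ x).2
    rw [he1, he2]
  let Ψ : (absWitt (S.prod T)).R →+* ((absWitt S).fib (absWitt T)).R :=
    RingHom.codRestrict Φ _ hmem
  refine ⟨RingEquiv.ofBijective Ψ ⟨?_, ?_⟩, ?_⟩
  · intro x y hxy
    exact hinj (congrArg Subtype.val hxy)
  · rintro ⟨⟨x, y⟩, hxy⟩
    have hxy' : (absWitt S).e x = (absWitt T).e y := hxy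
    obtain ⟨n, z, hz⟩ := hsur1 x
    obtain ⟨m, w, hw⟩ := hsur2 y
    have h1 : (absWitt S).e (x - n) = 0 := by
      have h2 := he1 z
      have h3 := he2 z
      rw [hz] at h2 h3
      rw [h2, ← h3]
      exact map_zero _
    have h2 : (absWitt T).e (y - m) = 0 := by
      have h2 := he1 w
      have h3 := he2 w
      rw [hw] at h2 h3
      rw [h3, ← h2]
      exact map_zero _
    rw [map_sub, map_intCast] at h1 h2
    have h3 : (((n - m : ℤ)) : ZMod 2) = 0 := by
      push_cast
      rw [← sub_eq_zero.1 h1, ← sub_eq_zero.1 h2, hxy', sub_self]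
    rw [ZMod.intCast_zmod_eq_zero_iff_dvd] at h3
    obtain ⟨k, hk⟩ := h3
    refine ⟨z + w + m + k * (1 - cl (S.prod T) (pr S T S.neg 1)), Subtype.ext ?_⟩
    show Φ _ = (x, y)
    rw [map_add, map_add, map_add, map_mul, htwo, hz, hw, map_intCast, map_intCast]
    have hn : n = m + 2 * k := by push_cast at hk; linarith
    refine Prod.ext ?_ ?_
    · show (x - n) + 0 + ((m : ℤ) : (absWitt S).R) + ((k : ℤ) : (absWitt S).R) * 2 = x
      rw [hn]
      push_cast
      ring
    · show 0 + (y - m) + ((m : ℤ) : (absWitt T).R) + ((k : ℤ) : (absWitt T).R) * 0 = y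
      ring
  · intro x
    exact he1 x

end Prod

end Pool.Agent.Hhelper59.WittR
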