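import Pool.Agent.Hhelper59.WittR.FieldIso
import Pool.Agent.Hhelper59.WittR.Prod

/-!
# Elementary type: from quaternionic structures to Witt rings
-/

namespace Pool.Agent.Hhelper59.WittR

open Pool.Agent.Hhelper2

universe u v w

lemma IsElem.of_iso {P Q : Pair.{u}} (h : IsElem P) (f : Q.IsIso P) : IsElem Q := by
  cases h with
  | complex _ h => exact IsElem.complex Q (f.trans h)
  | real _ h => exact IsElem.real Q (f.trans h)
  | three _ h => exact IsElem.three Q (f.trans h)
  | dyadic _ K h => exact IsElem.dyadic Q K (f.trans h)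
  | ext P' _ h h' => exact IsElem.ext P' Q h (f.trans h')
  | fib P' Q' _ h h' h'' => exact IsElem.fib P' Q' Q h h' (f.trans h'')

/-- The Witt ring of a quaternionic structure of elementary type is of elementary type. -/
theorem isElem_absWitt {S : QStr.{u}} (h : IsElementary S) : QAx S ∧ IsElem (absWitt S) := by
  induction h with
  | complex S h =>
    obtain ⟨f⟩ := h
    have h2 : (2 : ℂ) ≠ 0 := two_ne_zero
    exact ⟨(qax_field h2).of_iso f, IsElem.complex _ ((absWitt_iso f).trans (field_iso h2))⟩
  | real S h =>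
    obtain ⟨f⟩ := h
    have h2 : (2 : ℝ) ≠ 0 := two_ne_zero
    exact ⟨(qax_field h2).of_iso f, IsElem.real _ ((absWitt_iso f).trans (field_iso h2))⟩
  | three S h =>
    obtain ⟨f⟩ := h
    have h2 : (2 : ZMod 3) ≠ 0 := by decide
    exact ⟨(qax_field h2).of_iso f, IsElem.three _ ((absWitt_iso f).trans (field_iso h2))⟩
  | dyadic S K h =>
    obtain ⟨f⟩ := h
    have h2 : (2 : K) ≠ 0 := by
      have : CharZero K := charZero_of_injective_algebraMap (algebraMap ℚ_[2] K).injective
      exact two_ne_zero
    exact ⟨(qax_field h2).of_iso f, IsElem.dyadic _ K ((absWitt_iso f).trans (field_iso h2))⟩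
  | prod S T U _ _ h ihS ihT =>
    obtain ⟨f⟩ := h
    exact ⟨(ihS.1.prod ihT.1).of_iso f, IsElem.fib _ _ _ ihS.2 ihT.2
      ((absWitt_iso f).trans (absWitt_prod S T ihS.1 ihT.1))⟩
  | ext S U _ h ihS =>
    obtain ⟨f⟩ := h
    exact ⟨ihS.1.ext.of_iso f, IsElem.ext _ _ ihS.2
      ((absWitt_iso f).trans (absWitt_ext S ihS.1))⟩

/-- If the quaternionic structure of a field is of elementary type, so is its Witt ring. -/
theorem wittRing_of_isElementary (F : Type u) [Field F] (h2 : (2 : F) ≠ 0)
    (h : IsElementary (QStr.ofField F)) : IsElementaryType (WittRing F) :=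
  ⟨witt F, (isElem_absWitt h).2.of_iso (field_iso h2).symm, ⟨RingEquiv.refl _⟩⟩

end Pool.Agent.Hhelper59.WittR
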